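import Pool.Agent.helper32.PN.Spec

set_option autoImplicit false

namespace Pool.Agent.PN

open Module Polynomial Pool.Agent.helper27.PC

theorem HB_up (h1 : NPR_stmt) (s : Bool) (K : ℕ) : ∀ (i : ℕ) (T : St), T ∈ ends i (base s K) →
    ∀ l ∈ T, (l.1 = s → l.2 ≤ K + i) ∧ (l.1 ≠ s → l.2 + 1 ≤ K + i) := by
  intro i
  induction i with
  | zero =>
    intro T hT l hl
    rw [ends, Finset.mem_singleton] at hT
    subst hT
    unfold base at hl
    rw [Finset.mem_insert] at hl
    rcases hl with rfl | hl
    · exact ⟨fun _ => le_rfl, fun h => absurd rfl h⟩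
    · unfold vac at hl
      rw [Finset.mem_product, Finset.mem_range] at hl
      exact ⟨fun _ => by omega, fun _ => by omega⟩
  | succ i ih =>
    intro T hT l hl
    obtain ⟨y, hy, hT'⟩ := ((h1 i (base s K) T).2.1).mp hT
    have hih := ih _ hT'
    unfold rem at hih
    by_cases hly : l = y
    · subst hly
      have h2 := hih (dn 1 l) (Finset.mem_insert_self _ _)
      have h3 : (dn 1 l).1 = l.1 := rfl
      have h4 : (dn 1 l).2 = l.2 - 1 := rfl
      rw [h3, h4] at h2
      exact ⟨fun h => by have := h2.1 h; omega, fun h => by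
        have := h2.2 h
        omega⟩
    · have h2 := hih l (Finset.mem_insert_of_mem (Finset.mem_erase.mpr ⟨hly, hl⟩))
      exact ⟨fun h => by have := h2.1 h; omega, fun h => by have := h2.2 h; omega⟩

theorem HB (h1 : NPR_stmt) (h2 : HOL_stmt) (h3 : PTM_stmt) : HB_stmt := by
  intro t s K i
  induction i with
  | zero =>
    intro T _ hT
    rw [ends, Finset.mem_singleton] at hT
    subst hT
    simp
  | succ i ih =>
    intro T hts hT
    obtain ⟨y, hy, hT'⟩ := ((h1 i (base s K) T).2.1).mp hT
    obtain ⟨-, -, hadd, hmv, -⟩ := (h2 s K (i + 1) T hT).2.2.1 1 le_rfl y hy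
    have hp := h3 t K 1 (rem 1 T y) (dn 1 y) le_rfl hadd
    rw [hmv] at hp
    have hi := ih (rem 1 T y) hts hT'
    have hup := HB_up h1 s K i (rem 1 T y) hT' (dn 1 y) (by
      unfold addable at hadd
      exact (Finset.mem_filter.mp hadd).1)
    have hnot : dn 1 y ∉ T := by
      unfold remv at hy
      exact (Finset.mem_filter.mp hy).2.2
    have hA := (h2 s K (i + 1) T hT).1 (dn 1 y).1 (dn 1 y).2 hnot
    have hB : (dn 1 y).1 = s → K < i + 1 + (dn 1 y).2 := by
      intro hs
      apply (h2 s K (i + 1) T hT).2.1 (dn 1 y).2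
      rw [← hs]
      exact hnot
    generalize dn 1 y = l at *
    obtain ⟨u, p⟩ := l
    simp only at hup hA hB hp
    obtain ⟨q1, q2, q3⟩ := hi
    push_cast
    have e1 : ((i : ℤ) + 1) * (i + 1 + 1) = i * (i + 1) + 2 * (i + 1) := by ring
    have e2 : -((i : ℤ) + 1) * (i + 1 - 1) = - i * (i - 1) - 2 * i := by ring
    have e3 : 2 * ((i : ℤ) + 1) - (i + 1) * (i + 1 - 1) = (2 * (i : ℤ) - i * (i - 1)) + 2 - 2 * i := by ring
    rw [e1, e2, e3]
    by_cases hu : u = s
    · have ht0 : tb t u = 0 := by
        unfold tb
        subst hu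
        rw [if_neg hts]
      rw [ht0] at hp
      have a1 := hup.1 hu
      have a2 := hB hu
      push_cast at hp
      refine ⟨by omega, by omega, fun ht => ?_⟩
      have := q3 ht
      omega
    · have a1 := hup.2 hu
      have htb : tb t u ≤ 1 := by
        unfold tb
        split_ifs <;> omega
      have htb2 : t = true → tb t u = 1 := by
        intro ht
        subst ht
        have hs : s = false := by
          cases s
          · rfl
          · exact absurd rfl hts
        subst hs
        have hu' : u = true := by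
          cases u
          · exact absurd rfl hu
          · rfl
        subst hu'
        rfl
      push_cast at hp
      refine ⟨by omega, by omega, fun ht => ?_⟩
      have := q3 ht
      have := htb2 ht
      omega

end Pool.Agent.PN
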